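import Pool.Agent.R800.DT.Loc3

/-!
Directed polymers on `ℤ^d` with a general i.i.d. environment: at no place and at no mesoscopic
scale does the polymer stay near any of stretched-exponentially many deterministic curves of speed
less than one, nor near any straight line of speed less than one, within distance `l^κ`,
`κ < 1/(d+2)`, where `l` is the length of the time window.
The definitions (walk, energy, partition function, polymer measure) are in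
`Pool/Agent/TH967/DP/Defs.lean`; `dist2` is in `Pool/Agent/R800/DT/Fin.lean`.
-/

namespace Pool.Agent.Results.MP_7d29a1_pr.TubesAtAllScales

open MeasureTheory ProbabilityTheory Filter TH967.DP Pool.Agent.R800.DT

/-- For every dimension `d ≥ 1`, every non-constant law of the environment with all exponential
moments, every `β > 0`, `a > 0`, `κ < 1/(d+2)` and `lam < (1-dκ)/2`:
(1) there is `c > 0` such that for any families `G n` of at most `exp(n^c)` triples `(s, l, γ)` of a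
start time `s`, a length `l` with `n^a ≤ l`, `s + l ≤ n`, and a deterministic curve `γ` in `ℤ^d`
with `‖γ(t'+t) - γ(t')‖₁ ≤ (1-θ)t + C`, almost surely for all large `n` and all `k ≥ n` the polymer
measure `P_k` of `{∃ (s,l,γ) ∈ G n, ‖S_{s+i} - γ(s+i)‖ ≤ l^κ for all i ≤ l}` is at most
`exp(-n^(a lam))`;
(2) the same for the family of all windows and all straight lines `i ↦ S_s + i v`, `v ∈ ℝ^d`,
`‖v‖₁ ≤ 1-θ`;
(3) the same for all windows and the chord from `S_s` to `S_{s+l}` when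
`‖S_{s+l} - S_s‖₁ ≤ (1-θ) l`. -/
theorem result {d : ℕ} (hd : 1 ≤ d) {Ω : Type} [MeasurableSpace Ω] (P : Measure Ω)
    [IsProbabilityMeasure P] (ω : ℕ → (Fin d → ℤ) → Ω → ℝ)
    (hmeas : ∀ i y, Measurable (ω i y))
    (hindep : iIndepFun (fun s : ℕ × (Fin d → ℤ) => ω s.1 s.2) P)
    (hident : ∀ i y, IdentDistrib (ω i y) (ω 1 0) P P)
    (hexp : ∀ b : ℝ, Integrable (fun x => Real.exp (b * ω 1 0 x)) P)
    (hnc : ¬ ∃ c : ℝ, ∀ᵐ x ∂P, ω 1 0 x = c) (β : ℝ) (hβ : 0 < β)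
    (κ lam a : ℝ) (hκ : 0 < κ) (hκ2 : κ < 1 / ((d : ℝ) + 2)) (hlam : lam < (1 - d * κ) / 2)
    (ha : 0 < a) :
    (∃ c : ℝ, 0 < c ∧ ∀ θ C : ℝ, 0 < θ → ∀ G : ℕ → Finset (ℕ × ℕ × (ℕ → Fin d → ℤ)),
      (∀ᶠ n : ℕ in atTop, ((G n).card : ℝ) ≤ Real.exp ((n : ℝ) ^ c)) →
      (∀ n, ∀ s l γ, (s, l, γ) ∈ G n → (n : ℝ) ^ a ≤ l ∧ s + l ≤ n ∧
        ∀ t' t : ℕ, ∑ j, |(γ (t' + t) j : ℝ) - (γ t' j : ℝ)| ≤ (1 - θ) * t + C) →
      ∀ᵐ x ∂P, ∀ᶠ n : ℕ in atTop, ∀ k, n ≤ k →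
        polymerProb β (fun i y => ω i y x) k
          {w | ∃ s l γ, (s, l, γ) ∈ G n ∧
            ∀ i ≤ l, euclid (pos w (s + i) - γ (s + i)) ≤ (l : ℝ) ^ κ} ≤
          Real.exp (-(n : ℝ) ^ (a * lam))) ∧
    (∀ θ : ℝ, 0 < θ → ∀ᵐ x ∂P, ∀ᶠ n : ℕ in atTop, ∀ k, n ≤ k →
        polymerProb β (fun i y => ω i y x) k
          {w | ∃ s l : ℕ, (n : ℝ) ^ a ≤ l ∧ s + l ≤ n ∧
            ∃ v : Fin d → ℝ, ∑ j, |v j| ≤ 1 - θ ∧
            ∀ i ≤ l, dist2 (pos w (s + i)) (fun j => pos w s j + i * v j) ≤ (l : ℝ) ^ κ} ≤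
          Real.exp (-(n : ℝ) ^ (a * lam))) ∧
    (∀ θ : ℝ, 0 < θ → ∀ᵐ x ∂P, ∀ᶠ n : ℕ in atTop, ∀ k, n ≤ k →
        polymerProb β (fun i y => ω i y x) k
          {w | ∃ s l : ℕ, (n : ℝ) ^ a ≤ l ∧ s + l ≤ n ∧
            ∑ j, |(pos w (s + l) j : ℝ) - pos w s j| ≤ (1 - θ) * l ∧
            ∀ i ≤ l, dist2 (pos w (s + i)) (fun j => pos w s j +
              (i : ℝ) / l * ((pos w (s + l) j : ℝ) - pos w s j)) ≤ (l : ℝ) ^ κ} ≤
          Real.exp (-(n : ℝ) ^ (a * lam))) := by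
  have h : IsEnv P ω := ⟨hmeas, hindep, hident⟩
  have hd2 : (0 : ℝ) < (d : ℝ) + 2 := by positivity
  rw [lt_div_iff₀ hd2] at hκ2
  refine ⟨?_, fun θ hθ => as_lines_loc h hd hexp hnc hβ hκ hκ2 hlam ha hθ,
    fun θ hθ => as_chord_loc h hd hexp hnc hβ hκ hκ2 hlam ha hθ⟩
  obtain ⟨c, hc, hmain⟩ := as_loc h hd hexp hnc hβ hκ hκ2 hlam ha
  refine ⟨c, hc, fun θ C hθ G hGc hGs => ?_⟩
  obtain ⟨q, hq⟩ := exists_nat_gt (1 / θ)
  have hq0 : (0 : ℝ) < q := lt_trans (by positivity) hq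
  have hq1 : 1 ≤ q := by exact_mod_cast hq0
  have hqθ : 1 < q * θ := by
    rw [div_lt_iff₀ hθ] at hq
    exact hq
  have hfin := hmain q ⌈C⌉₊ hq1 G hGc (by
    rintro n ⟨s, l, γ⟩ hg
    obtain ⟨h1, h2, h3⟩ := hGs n s l γ hg
    refine ⟨?_, h1, h2⟩
    intro t' t
    have h1 := h3 t' t
    have h2 := Nat.le_ceil C
    have h3 : (q : ℝ) * ∑ k, |(γ (t' + t) k : ℝ) - (γ t' k : ℝ)| + (t : ℝ) ≤
        (q : ℝ) * t + (q : ℝ) * (⌈C⌉₊ : ℝ) := by
      have h4 := mul_le_mul_of_nonneg_left h1 hq0.le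
      have h5 := mul_le_mul_of_nonneg_left h2 hq0.le
      have h6 : (t : ℝ) ≤ (q * θ) * t := by
        have : (0 : ℝ) ≤ t := by positivity
        nlinarith
      nlinarith
    exact_mod_cast h3)
  filter_upwards [hfin] with x hx
  filter_upwards [hx] with n hxn
  intro k hk
  refine le_trans (polymerProb_mono hd β _ k ?_) (hxn k hk)
  rintro w ⟨s, l, γ, hg, hw⟩
  exact ⟨(s, l, γ), hg, hw⟩

end Pool.Agent.Results.MP_7d29a1_pr.TubesAtAllScales
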